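import Pool.Agent.W670.ML.Defs

set_option autoImplicit false

namespace Pool.Agent.W135.ML

open Pool.Agent.W670.ML

attribute [-instance] DivisionRing.toRatAlgebra
attribute [local instance 10] DivisionRing.toRatAlgebra

/-- restriction of scalars of an embedding -/
noncomputable def R {K Ω : Type} [Field K] [NumberField K] [Field Ω] [Algebra K Ω]
    [Algebra ℚ Ω] [IsScalarTower ℚ K Ω] (L : IntermediateField K Ω) (ψ : ↥L →ₐ[K] Ω) :
    ↥(L.restrictScalars ℚ) →ₐ[ℚ] Ω where
  toFun x := ψ ⟨x.1, x.2⟩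
  map_one' := map_one ψ
  map_mul' x y := map_mul ψ ⟨x.1, x.2⟩ ⟨y.1, y.2⟩
  map_zero' := map_zero ψ
  map_add' x y := map_add ψ ⟨x.1, x.2⟩ ⟨y.1, y.2⟩
  commutes' q := by
    have h1 : (⟨((algebraMap ℚ ↥(L.restrictScalars ℚ)) q).1,
        ((algebraMap ℚ ↥(L.restrictScalars ℚ)) q).2⟩ : ↥L)
        = algebraMap K ↥L (algebraMap ℚ K q) := by
      apply Subtype.ext
      show algebraMap ℚ Ω q = algebraMap K Ω (algebraMap ℚ K q)
      exact IsScalarTower.algebraMap_apply ℚ K Ω q
    show ψ (⟨((algebraMap ℚ ↥(L.restrictScalars ℚ)) q).1,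
        ((algebraMap ℚ ↥(L.restrictScalars ℚ)) q).2⟩ : ↥L) = _
    rw [h1, AlgHom.commutes]
    exact (IsScalarTower.algebraMap_apply ℚ K Ω q).symm

theorem ic (h1 : S_IA) (h2 : S_IB) : S_IC := by
  intro K Ω _ _ _ _ _ _ _ _ n N m G H L hG hH hmn hGm h hh hne
  obtain ⟨_, eG, heG⟩ := hG
  obtain ⟨_, eH, heH⟩ := hH
  obtain ⟨σ, hσ⟩ := (heH h).1 hh
  -- a moved embedding
  obtain ⟨x, hx⟩ : ∃ x, h x ≠ x := by
    by_contra hcon
    push Not at hcon
    exact hne (Equiv.ext hcon)
  obtain ⟨φ0, rfl⟩ := eH.surjective x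
  have hφ0 : σ.toAlgHom.comp φ0 ≠ φ0 := by
    intro hc
    apply hx
    rw [hσ, hc]
  -- the restriction to K
  have hmemK : ∀ k : K, algebraMap K Ω k ∈ L.restrictScalars ℚ := fun k => L.algebraMap_mem k
  let τ0 : K →ₐ[ℚ] Ω :=
    { toFun := fun k => φ0 ⟨algebraMap K Ω k, hmemK k⟩
      map_one' := by
        rw [← map_one φ0]; congr 1; apply Subtype.ext; exact map_one _
      map_mul' := fun a b => by
        rw [← map_mul φ0]; congr 1; apply Subtype.ext; exact map_mul _ _ _
      map_zero' := by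
        rw [← map_zero φ0]; congr 1; apply Subtype.ext; exact map_zero _
      map_add' := fun a b => by
        rw [← map_add φ0]; congr 1; apply Subtype.ext; exact map_add _ _ _
      commutes' := fun q => by
        show φ0 _ = _
        rw [← AlgHom.commutes φ0 q]; congr 1; apply Subtype.ext
        exact (IsScalarTower.algebraMap_apply ℚ K Ω q).symm }
  have : IsAlgClosed Ω := IsAlgClosure.isAlgClosed ℚ
  have : Algebra.IsAlgebraic ℚ Ω := IsAlgClosure.isAlgebraic
  have : Algebra.IsAlgebraic K Ω := IsAlgClosure.isAlgebraic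
  obtain ⟨ρ', hρ'⟩ := IsAlgClosed.surjective_domRestrict_of_isAlgebraic
    (K := ℚ) (L := K) (M := Ω) (E := Ω) τ0
  let ρ : Ω ≃ₐ[ℚ] Ω := AlgEquiv.ofBijective ρ' (Algebra.IsAlgebraic.algHom_bijective ρ')
  have hρK : ∀ k : K, ρ (algebraMap K Ω k) = φ0 ⟨algebraMap K Ω k, hmemK k⟩ := by
    intro k
    have := congrArg (fun f : K →ₐ[ℚ] Ω => f k) hρ'
    exact this
  let f : Fin n → Fin N := fun a => eH (ρ.toAlgHom.comp (R L (eG.symm a)))
  have hfinj : Function.Injective f := by
    intro a b hab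
    have h3 := eH.injective hab
    have h4 : eG.symm a = eG.symm b := by
      apply AlgHom.ext
      intro y
      have h5 := congrArg (fun F : ↥(L.restrictScalars ℚ) →ₐ[ℚ] Ω => F ⟨y.1, y.2⟩) h3
      exact ρ.injective h5
    exact eG.symm.injective h4
  by_cases hc : ∀ k : K, σ (φ0 ⟨algebraMap K Ω k, hmemK k⟩) = φ0 ⟨algebraMap K Ω k, hmemK k⟩
  · -- case B
    let σ' : Ω ≃ₐ[K] Ω := AlgEquiv.ofRingEquiv (f := ((ρ.trans σ).trans ρ.symm).toRingEquiv)
      (by
        intro k
        show ρ.symm (σ (ρ (algebraMap K Ω k))) = algebraMap K Ω k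
        rw [hρK k, hc k, ← hρK k]
        exact ρ.symm_apply_apply _)
    have hσ' : ∀ z, ρ (σ' z) = σ (ρ z) := by
      intro z
      show ρ (ρ.symm (σ (ρ z))) = σ (ρ z)
      exact ρ.apply_symm_apply _
    let g : Equiv.Perm (Fin n) :=
      { toFun := fun a => eG (σ'.toAlgHom.comp (eG.symm a))
        invFun := fun a => eG (σ'.symm.toAlgHom.comp (eG.symm a))
        left_inv := fun a => by
          show eG (σ'.symm.toAlgHom.comp (eG.symm (eG (σ'.toAlgHom.comp (eG.symm a))))) = a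
          rw [Equiv.symm_apply_apply, Equiv.apply_eq_iff_eq_symm_apply]
          apply AlgHom.ext
          intro y
          show σ'.symm (σ' _) = _
          exact σ'.symm_apply_apply _
        right_inv := fun a => by
          show eG (σ'.toAlgHom.comp (eG.symm (eG (σ'.symm.toAlgHom.comp (eG.symm a))))) = a
          rw [Equiv.symm_apply_apply, Equiv.apply_eq_iff_eq_symm_apply]
          apply AlgHom.ext
          intro y
          show σ' (σ'.symm _) = _
          exact σ'.apply_symm_apply _ }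
    have hg : ∀ a, g a = eG (σ'.toAlgHom.comp (eG.symm a)) := fun a => rfl
    have hgG : g ∈ G := by
      rw [heG]
      refine ⟨σ', fun φ => ?_⟩
      rw [hg, Equiv.symm_apply_apply]
    -- the K-embedding ψ0
    let ψ0 : ↥L →ₐ[K] Ω :=
      { toFun := fun y => ρ.symm (φ0 ⟨y.1, y.2⟩)
        map_one' := by
          have : φ0 ⟨(1 : ↥L).1, (1 : ↥L).2⟩ = 1 := map_one φ0
          rw [this]; exact map_one _
        map_mul' := fun a b => by
          have : φ0 ⟨(a * b : ↥L).1, (a * b : ↥L).2⟩ = φ0 ⟨a.1, a.2⟩ * φ0 ⟨b.1, b.2⟩ :=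
            map_mul φ0 ⟨a.1, a.2⟩ ⟨b.1, b.2⟩
          rw [this]; exact map_mul _ _ _
        map_zero' := by
          have : φ0 ⟨(0 : ↥L).1, (0 : ↥L).2⟩ = 0 := map_zero φ0
          rw [this]; exact map_zero _
        map_add' := fun a b => by
          have : φ0 ⟨(a + b : ↥L).1, (a + b : ↥L).2⟩ = φ0 ⟨a.1, a.2⟩ + φ0 ⟨b.1, b.2⟩ :=
            map_add φ0 ⟨a.1, a.2⟩ ⟨b.1, b.2⟩
          rw [this]; exact map_add _ _ _
        commutes' := fun k => by
          show ρ.symm (φ0 ⟨algebraMap K Ω k, hmemK k⟩) = _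
          rw [← hρK k]
          exact ρ.symm_apply_apply _ }
    have hgne : g ≠ 1 := by
      intro hg1
      have h5 : g (eG ψ0) = eG ψ0 := by rw [hg1]; rfl
      rw [hg, Equiv.symm_apply_apply] at h5
      have h6 := eG.injective h5
      apply hφ0
      apply AlgHom.ext
      intro y
      have h7 := congrArg (fun F : ↥L →ₐ[K] Ω => ρ (F ⟨y.1, y.2⟩)) h6
      have h8 : ρ (σ' (ρ.symm (φ0 ⟨y.1, y.2⟩))) = ρ (ρ.symm (φ0 ⟨y.1, y.2⟩)) := h7
      rw [hσ', AlgEquiv.apply_symm_apply] at h8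
      exact h8
    have hfg : ∀ a, h (f a) = f (g a) := by
      intro a
      show h (eH (ρ.toAlgHom.comp (R L (eG.symm a)))) = eH (ρ.toAlgHom.comp (R L (eG.symm (g a))))
      rw [hσ, hg, Equiv.symm_apply_apply]
      congr 1
      apply AlgHom.ext
      intro y
      show σ (ρ (eG.symm a ⟨y.1, y.2⟩)) = ρ (σ' (eG.symm a ⟨y.1, y.2⟩))
      rw [hσ']
    exact (hGm g hgG hgne).trans (h2 n N f hfinj g h hfg)
  · -- case A
    have hcard : (Finset.univ.image f).card = n := by
      rw [Finset.card_image_of_injective _ hfinj, Finset.card_univ, Fintype.card_fin]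
    have h6 := h1 N h (Finset.univ.image f) (by
      intro x hx' hx''
      obtain ⟨a, _, rfl⟩ := Finset.mem_image.1 hx'
      obtain ⟨b, _, hb⟩ := Finset.mem_image.1 hx''
      apply hc
      intro k
      have h7 : eH (ρ.toAlgHom.comp (R L (eG.symm b))) =
          h (eH (ρ.toAlgHom.comp (R L (eG.symm a)))) := hb
      rw [hσ] at h7
      have h8 := eH.injective h7
      have h9 := congrArg (fun F : ↥(L.restrictScalars ℚ) →ₐ[ℚ] Ω =>
        F ⟨algebraMap K Ω k, hmemK k⟩) h8
      have h10 : ρ (eG.symm b (algebraMap K ↥L k)) = σ (ρ (eG.symm a (algebraMap K ↥L k))) := h9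
      rw [AlgHom.commutes, AlgHom.commutes, hρK] at h10
      exact h10.symm)
    rw [hcard] at h6
    exact hmn.trans h6

end Pool.Agent.W135.ML
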